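import Pool.Agent.U553.HY.Fam
import Pool.Agent.Results.MP_4d52ff_nt.AlmostAllTuples

/-!
# MP_4d52ff_nt: relations between multiple zeta values split into relations of one weight, off a bounded number of
# hyperplanes of arguments

A pattern in `k` variables is a nonempty list of letters `b + u_1 s_1 + ... + u_k s_k`; at a tuple `s` of natural numbers
it gives an index. The first letters may be constant, of arbitrary weight, such as in `ζ(2, 2, s_1, 3, s_1 + s_2)`, and
all letters may be constant. The tuple `s` is bad (for `D` and `H`) if there is a polynomial relation of degree at most `D` with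
integer coefficients at most `H` between the multiple zeta values of the patterns at `s` such that its part of some weight is
not a relation; this is a nontrivial relation `z_0 + ... + z_p = 0` with `z_j` in the space `Z_j`. We consider the tuples `s`
with `2 ≤ s_j ≤ κ N` such that in each of the patterns the first letter which is not constant is at least `N`; the other letters
may be small, constant or of intermediate size.

Theorem. Let `w_1, ..., w_r` be admissible patterns in `k` variables, and let `D`, `κ` be natural numbers.

(1) If all constant first letters of the patterns are equal and even, in each pattern (or there are none), there is `K` such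
that for all `C` and all large `N` the tuples in this range which are bad for `D` and `H = C ^ N` lie on at most `K` hyperplanes
`∑ b_j s_j = c` with integral coefficients `|b_j| ≤ K`. This is unconditional.

(2) For arbitrary constant first letters the same holds if all polynomial relations between the multiple zeta values of
the (finitely many) fronts split into relations of one weight.

(3) Conversely, the sum `Z_0 + ... + Z_p` is direct for all `p` (Q1) if and only if for all admissible patterns, `D` and `κ` the
bad tuples lie on a bounded number of hyperplanes with bounded coefficients, as in (1).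

The theorem `AlmostAllTuples` of this page (helper734) bounds the number of the bad tuples in `[N, κ N] ^ k` by
`K N ^ (k - 1)`. This says nothing about families with fewer than `N ^ (k - 1)` tuples, and all the variables have to be
large. The proof uses `Pool.Agent.U553.HY` (elimination between tuples in general position, `Pool.Agent.X90.DC` of the starting
library) for the family `ζ(u) T ^ |u|` of polynomials and, for the fronts and the converse, `AlmostAllTuples`.
-/

set_option autoImplicit false

namespace Pool.Agent.Results.MP_4d52ff_nt.BadHyperplanes

open Pool.Agent.Results.MP_4d52ff_nt.AlmostAllTuples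
open Pool.Agent.N734.MZ (St Zg Tr)
open Pool.Agent.U553.HY (Range OnHyperplanes largeFirst_of)

/-- There is `K` such that for all `C` and all sufficiently large `N` the tuples `s` with the property `E (C ^ N)` such that
`2 ≤ s_j ≤ κ N` and the first letters of the patterns `w_i` which are not constant are at least `N` lie on at most `K`
hyperplanes `∑ b_j s_j = c` with integers `c` and `b_j`, not all zero, `|b_j| ≤ K`. -/
def OnFewHyperplanes {k r : ℕ} (w : Fin r → List (Letter k)) (κ : ℕ) (E : ℝ → (Fin k → ℕ) → Prop) : Prop :=
  ∃ K : ℕ, ∀ C : ℝ, ∃ N₀ : ℕ, ∀ N : ℕ, N₀ ≤ N → OnHyperplanes K {s : Fin k → ℕ | s ∈ Range w κ N ∧ E (C ^ N) s}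

theorem OnFewHyperplanes.few {k r κ : ℕ} {w : Fin r → List (Letter k)} {E : ℝ → (Fin k → ℕ) → Prop}
    (h : OnFewHyperplanes w κ E) : Few κ E := by
  obtain ⟨K, hK⟩ := h
  refine ⟨K * (κ + 1) ^ (k - 1), fun C => ?_⟩
  obtain ⟨N₀, hN⟩ := hK C
  refine ⟨N₀ + 2, fun N hN' => ?_⟩
  refine OnHyperplanes.ncard (N := N) (κ := κ) (by omega) ((hN N (by omega)).mono ?_) fun s hs => hs.1
  rintro s ⟨h1, h2⟩
  exact ⟨⟨fun j => ⟨le_trans (by omega) (h1 j).1, (h1 j).2⟩, fun i => largeFirst_of (fun j => (h1 j).1) _⟩, h2⟩

/-- part (2) -/
theorem part2H {k r : ℕ} (w : Fin r → List (Letter k)) (hw : ∀ i, AdmissiblePattern (w i))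
    (hS : Splits (fronts w)) (D κ : ℕ) : OnFewHyperplanes w κ fun H s => Bad w D H s := by
  classical
  obtain ⟨K, hK⟩ := Pool.Agent.U553.HY.famH w (fun i => (hw i).2) (fun i => (hw i).1) (fronts w)
    (fun i q hq hne => ⟨hne, i, by rw [constantPart_eq]; exact hq⟩) D κ
  refine ⟨K, fun C => ?_⟩
  obtain ⟨N₀, hN₀⟩ := hK C
  refine ⟨N₀, fun N hN => (hN₀ N hN).mono ?_⟩
  rintro s ⟨h1, P, h2, h3, h4, p, h5⟩
  refine ⟨h1, P, h2, h3, ?_, Polynomial ℝ, inferInstance, inferInstance, Zg, Pool.Agent.N734.MZ.st_Zg,
    (splits_iff _).1 hS, fun h => h5 ?_⟩
  · rw [← mzv_fun]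
    exact h4
  · exact (gval_eq_zero (fun i => index s (w i)) P).1 h p

theorem splits_mono (S : Set (List ℕ)) (h : Splits Set.univ) : Splits S := by
  intro f hf p
  let ρ : {u : List ℕ // Admissible u ∧ u ∈ S} → {u : List ℕ // Admissible u ∧ u ∈ (Set.univ : Set (List ℕ))} :=
    fun u => ⟨u.1, u.2.1, trivial⟩
  have h1 := h (MvPolynomial.rename ρ f) (by
    rw [MvPolynomial.aeval_rename]
    exact hf)
  rw [← gval_eq_zero, gval, MvPolynomial.aeval_rename] at h1
  exact (gval_eq_zero (fun u : {u : List ℕ // Admissible u ∧ u ∈ S} => u.1) f).1 h1 p

/-- for all patterns, `D` and `κ` the bad tuples lie on few hyperplanes -/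
def BadOnHyperplanes : Prop :=
  ∀ (k r : ℕ) (w : Fin r → List (Letter k)), (∀ i, AdmissiblePattern (w i)) → ∀ D κ : ℕ,
    OnFewHyperplanes w κ fun H s => Bad w D H s

/-- **Theorem.** (1) For admissible patterns `w_1, ..., w_r` in `k` variables with even fronts and for `D`, `κ` there is
`K` such that for all `C` and all large `N` the following tuples `s` lie on at most `K` hyperplanes `∑ b_j s_j = c` with
integers `c` and `b_j`, not all zero, `|b_j| ≤ K`: the tuples with `2 ≤ s_j ≤ κ N`, for which the first letters of the patterns
which are not constant are at least `N`, and for which some relation of degree at most `D` with integer coefficients at most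
`C ^ N` between the multiple zeta values of the patterns does not split into relations of one weight. (2) The same holds for
arbitrary admissible patterns if all polynomial relations between the multiple zeta values of the fronts split into relations
of one weight. (3) All sums `Z_0 + ... + Z_p` are direct if and only if for all admissible patterns, `D`, `κ` the conclusion of
(1) holds. -/
theorem result :
    (∀ (k r : ℕ) (w : Fin r → List (Letter k)), (∀ i, AdmissiblePattern (w i)) → (∀ i, EvenFront (w i)) →
      ∀ D κ : ℕ, OnFewHyperplanes w κ fun H s => Bad w D H s) ∧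
    (∀ (k r : ℕ) (w : Fin r → List (Letter k)), (∀ i, AdmissiblePattern (w i)) → Splits (fronts w) →
      ∀ D κ : ℕ, OnFewHyperplanes w κ fun H s => Bad w D H s) ∧
    ((∀ p, IsDirect p) ↔ BadOnHyperplanes) := by
  refine ⟨fun _ _ w hw he D κ => part2H w hw (even_splits w he) D κ, fun _ _ w hw hS D κ => part2H w hw hS D κ, ?_⟩
  constructor
  · intro h k r w hw D κ
    exact part2H w hw (splits_mono _ (splits_of_direct h)) D κ
  · intro h
    refine (AlmostAllTuples.result.2.2.1).2 ?_
    intro k r w hw D κ
    exact (h k r w hw D κ).few

end Pool.Agent.Results.MP_4d52ff_nt.BadHyperplanes
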