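import Pool.Agent.U536.CF.Scales
import Pool.Agent.Results.MP_4d52ff_nt.AlmostAllTuples

/-!
# Relations between multiple zeta values split into relations of one weight at integers with large common factors with
# the values of arithmetic functions

A pattern in `k` variables is a nonempty list of letters `b + u_1 s_1 + ... + u_k s_k`; at a tuple `s` of natural numbers
it gives an index. The first letters may be constant, of arbitrary weight. The tuple `s` is bad (for `D` and `H`) if there
is a polynomial relation of degree at most `D` with integer coefficients at most `H` between the multiple zeta values of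
the patterns at `s` such that its part of some weight is not a relation.

Let `F_1, …, F_k` be positive multiplicative functions of at most polynomial growth such that `F_i p ≤ M p` for the large
primes `p`, with different values at different large primes; for example Euler's function or the sum of the divisors. Let
`b < 1`, `0 ≤ c < 2 b - 1`, `θ ≥ 0` and `ρ ≤ 1` with `k (1 - ρ + θ) < 1`. An argument tuple `m ∈ [1, N] ^ k` is good if
for EVERY tuple `v` of integers `v_i ≥ exp ((log N)^b)` with `gcd(v_i, F_i(m_i)) ≥ v_i^ρ`, NO tuple `s` with `|s_i - v_i|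
≤ v_i ^ θ` in a cone `T ≤ s_i ≤ κ T` is bad for `D` and `H = C ^ T`.

Theorem. For all large `N`, all but `N^k exp (-(log N)^c)` of the `m ∈ [1, N] ^ k` are good, unconditionally if the
constant fronts of the patterns are even (`2a, ..., 2a`, or empty), and for arbitrary patterns if all polynomial relations
between the multiple zeta values of the (finitely many) fronts split into relations of one weight. The tuples `v` include
all tuples of large divisors `v_i` of the `F_i(m_i)` and their multiples by small integers; for Euler's function, the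
tuples of the orders of elements of the groups of units modulo the `m_i`.

Proof. But for few exceptional `m ≤ N`, the number of `m` with `g ∣ F(m)` is at most `N τ_J(g) / g` up to a factor `exp
((log N)^s)`, `J = (log N)^a`, `a < s < b`, for all `g`: write `m = k' u` with `u` squarefree and composed of primes
larger than `N^(1/J)`, `k' ≤ exp (4 (log N)^a)`. The exceptional tuples at all scales together with their windows have a
power saving, and so have the tuples of the large divisors of their coordinates; the inequality `τ_J^q ≤ τ_K` for `K ≥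
J^q` with Hölder's inequality for tuples bounds the sum of `∏ τ_J(g_i) / g_i` over these. The file `AlmostAllTuples` of
the starting library bounds the number of the bad tuples in the boxes `[N, κ N] ^ k` by `K N ^ (k - 1)`.
-/

set_option autoImplicit false

namespace Pool.Agent.Results.MP_4d52ff_nt.CommonFactors

open Pool.Agent.N733.TG (LM lm_totient lm_sigma)
open Pool.Agent.U536.CF (Common common_of_dvd common_order common_scales')
open Pool.Agent.Results.MP_4d52ff_nt.AlmostAllTuples
  (mzv Letter index AdmissiblePattern fronts EvenFront Splits part Bad Few even_splits)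

/-- For all large `N`, for all but `N^k exp (-(log N)^c)` of the tuples `m ∈ [1, N] ^ k`, for EVERY tuple `v` of integers `v_i
≥ exp ((log N)^b)` with `gcd(v_i, F_i(m_i)) ≥ v_i^ρ`, the property `E (C ^ T)` fails for ALL tuples `s` with `|s_i - v_i|
≤ v_i ^ θ` and `T ≤ s_i ≤ κ T`, `T ≥ 1`. -/
def FewNear {k : ℕ} (κ : ℕ) (C : ℝ) (F : Fin k → ℕ → ℕ) (θ ρ b c : ℝ) (E : ℝ → (Fin k → ℕ) → Prop) : Prop :=
  ∃ N₀ : ℕ, ∀ N : ℕ, N₀ ≤ N →
    ({m : Fin k → ℕ | (∀ i, 1 ≤ m i ∧ m i ≤ N) ∧ ∃ v : Fin k → ℕ, (∀ i, Common (F i) b ρ N (m i) (v i)) ∧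
      ∃ (s : Fin k → ℕ) (T : ℕ), 1 ≤ T ∧ (∀ i, T ≤ s i ∧ s i ≤ κ * T) ∧ (∀ i, |(s i : ℝ) - v i| ≤ (v i : ℝ) ^ θ) ∧
      E (C ^ T) s}.ncard : ℝ) ≤ (N : ℝ) ^ k * Real.exp (-(Real.log N ^ c))

lemma pow_bound (C : ℝ) {N T : ℕ} (h : T ≤ 2 * N) : C ^ T ≤ ((max |C| 1) ^ 2) ^ N := by
  have h5 : (1 : ℝ) ≤ max |C| 1 := le_max_right _ _
  calc C ^ T ≤ |C ^ T| := le_abs_self _
    _ = |C| ^ T := abs_pow C T
    _ ≤ (max |C| 1) ^ T := pow_le_pow_left₀ (abs_nonneg C) (le_max_left _ _) T
    _ ≤ (max |C| 1) ^ (2 * N) := pow_le_pow_right₀ h5 h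
    _ = _ := pow_mul _ _ _

lemma near_of_few {k : ℕ} (hk : 1 ≤ k) (κ : ℕ) (C : ℝ) {F : Fin k → ℕ → ℕ} (hF : ∀ i, LM (F i)) {θ ρ b c : ℝ} (hθ : 0 ≤ θ)
    (hρ : ρ ≤ 1) (hk1 : k * (1 - ρ + θ) < 1) (hb : b < 1) (hc : 0 ≤ c) (hcb : c < 2 * b - 1)
    {E : ℝ → (Fin k → ℕ) → Prop} (hE : ∀ H H' s, H ≤ H' → E H s → E H' s)
    (h : Few (2 * κ) E) : FewNear κ C F θ ρ b c E := by
  obtain ⟨K, hK⟩ := h
  obtain ⟨N₁, hN₁⟩ := hK ((max |C| 1) ^ 2)
  obtain ⟨N₀, hN₀⟩ := common_scales' hk κ (fun T s => E (C ^ T) s)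
    (fun N s => E (((max |C| 1) ^ 2) ^ N) s)
    (fun N T s h1 h2 h3 => hE _ _ s (pow_bound C h2.le) h3)
    ⟨K, N₁, fun N hN => hN₁ N hN⟩ hF hθ hρ hk1 hb hc hcb
  refine ⟨N₀, fun N hN => le_trans (le_of_eq ?_) (hN₀ N hN)⟩
  congr 2
  ext m
  constructor
  · rintro ⟨h1, v, hv, s, T, h2, h3, h4, h5⟩
    exact ⟨h1, fun h => h v hv s T h2 h3 h4 h5⟩
  · rintro ⟨h1, h2⟩
    push Not at h2
    obtain ⟨v, hv, s, T, h2, h3, h4, h5⟩ := h2
    exact ⟨h1, v, hv, s, T, h2, h3, h4, h5⟩

lemma bad_mono {k r : ℕ} (w : Fin r → List (Letter k)) (D : ℕ) (H H' : ℝ) (s : Fin k → ℕ) (h : H ≤ H')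
    (hB : Bad w D H s) : Bad w D H' s := by
  obtain ⟨P, h1, h2, h3, h4⟩ := hB
  exact ⟨P, h1, fun m => (h2 m).trans h, h3, h4⟩

/-- **Relations between multiple zeta values split into relations of one weight at integers with large common factors with the
values of arithmetic functions.** Let `w_1, ..., w_r` be admissible patterns in `k ≥ 1` variables, `D`, `κ` natural
numbers, `C` a real number, `F_1, ..., F_k` functions with `LM`, `θ ≥ 0`, `ρ ≤ 1`, `k (1 - ρ + θ) < 1`, `b < 1`, `0 ≤ c <
2 b - 1`. For all large `N`, for all but `N^k exp (-(log N)^c)` of the `m ∈ [1, N] ^ k`, for EVERY tuple `v` of integers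
`v_i ≥ exp ((log N)^b)` with `gcd(v_i, F_i(m_i)) ≥ v_i^ρ`, no tuple `s` with `|s_i - v_i| ≤ v_i ^ θ` and `T ≤ s_i ≤ κ T`
is bad, for the degree `D` and the height `C ^ T`: the relations, of this degree and height, between the multiple zeta
values of the patterns at `s` split into relations of one weight. Here the fronts are even, or the relations between the
multiple zeta values of the fronts split. Euler's function and the sum of the divisors satisfy `LM`. Divisors `v_i ≥ exp
((log N)^b)` of `F_i(m_i)` are such integers, and for Euler's function the orders `≥ exp ((log N)^b)` of the units modulo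
`m_i`. -/
theorem result :
    (∀ (k r : ℕ), 1 ≤ k → ∀ w : Fin r → List (Letter k), (∀ i, AdmissiblePattern (w i)) → ∀ (D κ : ℕ) (C : ℝ)
      (F : Fin k → ℕ → ℕ), (∀ i, LM (F i)) → ∀ θ ρ b c : ℝ, 0 ≤ θ → ρ ≤ 1 → k * (1 - ρ + θ) < 1 →
      b < 1 → 0 ≤ c → c < 2 * b - 1 →
      ((∀ i, EvenFront (w i)) ∨ Splits (fronts w)) → FewNear κ C F θ ρ b c (fun H s => Bad w D H s)) ∧
    (LM Nat.totient ∧ LM (fun m => ∑ d ∈ m.divisors, d)) ∧
    (∀ (f : ℕ → ℕ) (b ρ : ℝ) (N m w : ℕ), ρ ≤ 1 → Real.exp (Real.log N ^ b) ≤ (w : ℝ) → w ∣ f m → Common f b ρ N m w) ∧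
    ∀ (b ρ : ℝ) (N m : ℕ), ρ ≤ 1 → ∀ x : (ZMod m)ˣ, Real.exp (Real.log N ^ b) ≤ (orderOf x : ℝ) →
      Common Nat.totient b ρ N m (orderOf x) := by
  refine ⟨fun k r hk w hw D κ C F hF θ ρ b c hθ hρ hk1 hb hc hcb he => ?_, ⟨lm_totient, lm_sigma⟩, fun f b ρ N m w hρ hw hd => common_of_dvd hρ hw hd, fun b ρ N m hρ x hx => common_order hρ x hx⟩
  refine near_of_few hk κ C hF hθ hρ hk1 hb hc hcb (fun H H' s => bad_mono w D H H' s) ?_
  rcases he with he | he
  · exact AlmostAllTuples.result.1 k r w hw he D (2 * κ)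
  · exact AlmostAllTuples.result.2.1 k r w hw he D (2 * κ)

end Pool.Agent.Results.MP_4d52ff_nt.CommonFactors
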