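import Mathlib
import Pool.Agent.U831.AF.DichMain

/-!
# At each scale: the weight grading is direct up to weight `w`, or all weight spaces are large

Let `t_1, …, t_f` be elements of the spaces `Z_p`, `p ≤ w`, and let `u_(n,1), …, u_(n,g_n)` span
`Z_n` for `n ≤ w'`. For every large `X` one of the following two statements is true on the whole
range of scales `Y` between `X` and `X ^ M`.

(D) Small relations between the `t_j` split: if `|a_j| ≤ Y` and `|∑ a_j t_j| ≤ Y ^ (-κ)`, then every
weight part of the sum has absolute value at most `Y ^ (-κ')`.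

(G) In every weight `2 ≤ n ≤ w'` the small relations of height at most `Y` between the `u_(n,i)` span
a space of dimension at most `g_n - ⌊(n - 3 (n mod 2)) / (2 w)⌋ - 1`: at this scale `Z_n` has at least
about `n / (2 w)` independent elements.

The exact form (either `Z_0 + … + Z_w` is direct or `dim Z_n ≥ ⌊(n - 3 (n mod 2)) / (2 w)⌋ + 1` for all
`n ≥ 2`) follows from the transcendence of `π`: if `z / π ^ p` is algebraic for all `z` in `Z_p`,
`p ≤ w`, the sum is direct, otherwise the powers of a transcendental `z / π ^ p` give many elements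
of `Z_n`. Here neither the relations are exact nor are the algebraic numbers; the algebraic argument is
carried out over the field of fractions of the ring of classes of integer sequences, inside a field of
classes of sequences of polynomial growth in the scale `X_n`, modulo those which are smaller than all
powers of `1 / X_n` along an ultrafilter (`Pool.Agent.U831.AF`). In this field the class of `π` is
transcendental over the classes of integers by the transcendence measure of `π`.
-/

set_option autoImplicit false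

namespace Pool.Agent.Results.MP_4d52ff_nt.DirectOrGrowthAtEachScale

/-- the `ℚ`-span of the multiple zeta values of weight `p` -/
noncomputable def Z (p : ℕ) : Submodule ℚ ℝ :=
  Submodule.span ℚ
    {x : ℝ | ∃ t : ℕ, ∃ k : Fin t → ℕ,
      (∀ i, 1 ≤ k i) ∧ (∀ h : 0 < t, 2 ≤ k ⟨0, h⟩) ∧ (∑ i, k i) = p ∧
      x = ∑' m : {m : Fin t → ℕ // StrictAnti m ∧ ∀ i, 1 ≤ m i},
            ∏ i, (((m.1 i : ℕ) : ℝ) ^ (k i))⁻¹}

/-- the small relations at the scale `Y`: height at most `Y`, value at most `Y ^ (-κ)` -/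
def Near {g : ℕ} (u : Fin g → ℝ) (κ : ℕ) (Y : ℝ) : Set (Fin g → ℤ) :=
  {a | (∀ i, |(a i : ℝ)| ≤ Y) ∧ |∑ i, (a i : ℝ) * u i| * Y ^ κ ≤ 1}

/-- the dimension of the rational space spanned by the small relations at the scale `Y` -/
noncomputable def relDim {g : ℕ} (u : Fin g → ℝ) (κ : ℕ) (Y : ℝ) : ℕ :=
  Module.finrank ℚ (Submodule.span ℚ ((fun (a : Fin g → ℤ) (i : Fin g) => (a i : ℚ)) '' Near u κ Y))

/-- small relations split into their weight parts: the part of every weight `p` of a small relation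
has absolute value at most `Y ^ (-κ')` -/
def Splits {f : ℕ} (t : Fin f → ℝ) (wt : Fin f → ℕ) (κ κ' : ℕ) (Y : ℝ) : Prop :=
  ∀ a ∈ Near t κ Y, ∀ p, |∑ j with wt j = p, (a j : ℝ) * t j| * Y ^ κ' ≤ 1

/-- **Directness or growth at each scale.** -/
theorem result (w w' f : ℕ) (t : Fin f → ℝ) (wt : Fin f → ℕ) (ht : ∀ j, wt j ≤ w ∧ t j ∈ Z (wt j))
    (g : ℕ → ℕ) (u : ∀ n, Fin (g n) → ℝ) (hu : ∀ n ≤ w', Z n ≤ Submodule.span ℚ (Set.range (u n)))
    (κ' : ℕ) (M : ℝ) :
    ∃ (κ : ℕ) (X₀ : ℝ), ∀ X : ℝ, X₀ ≤ X →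
      (∀ Y, X ≤ Y → Y ≤ X ^ M → Splits t wt κ κ' Y) ∨
      (∀ n, 2 ≤ n → n ≤ w' → ∀ Y, X ≤ Y → Y ≤ X ^ M →
        relDim (u n) κ Y + ((n - 3 * (n % 2)) / (2 * w) + 1) ≤ g n) := by
  obtain ⟨κ, X₀, h⟩ := Pool.Agent.U831.AF.dichotomy w w' t wt (fun j => (ht j).2) (fun j => (ht j).1)
    g u hu κ' M
  refine ⟨κ, X₀, fun X hX => ?_⟩
  rcases h X hX with h1 | h1
  · exact Or.inl fun Y h2 h3 a ha => h1 Y h2 h3 a ha.1 ha.2
  · exact Or.inr h1

end Pool.Agent.Results.MP_4d52ff_nt.DirectOrGrowthAtEachScale
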