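import Pool.Agent.Results.MP_4d52ff_nt.BadHyperplanes

/-!
# MP_4d52ff_nt: relations between multiple zeta values with arguments near the values of polynomials and of other dispersed
# sequences split into relations of one weight

A pattern in `k` variables is a nonempty list of letters `b + u_1 s_1 + ... + u_k s_k`; at a tuple `s` of natural numbers
it gives an index. The first letters may be constant. The tuple `s` is bad (for `D` and `H`) if there is a polynomial relation
of degree at most `D` with integer coefficients at most `H` between the multiple zeta values of the patterns at `s` such that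
its part of some weight is not a relation. Real sequences `F_1, ..., F_k` are dispersed if for every nonzero integer vector `b`
the intervals of length two contain a bounded number of the `∑ b_j F_j(n)`; for example the values of real polynomials of which
no nontrivial integer combination is constant.

Theorem. (1) Let `F_1, ..., F_k` be dispersed. For all large `N` and ALL `W` there are at most `K (W + 1)` numbers `n` for which
a tuple `s` near `F(n)`, `|s_j - F_j(n)| ≤ W`, in the range of the scale `N` (`2 ≤ s_j ≤ κ N`, and in each of the patterns the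
first letter which is not constant is at least `N`) is bad for `D` and `H = C ^ N`, if the constant first letters of each
pattern are equal and even (or if there are none), or if all polynomial relations between the multiple zeta values of the
fronts split into relations of one weight. (So for all but a bounded number of the `n` in `[X, κ X]` relations of exponential
height between multiple zeta values such as `ζ(n^2, n)`, `ζ(2, 2, n^2 + n, n)`, `ζ([√2 n], [√3 n])`, of different weights,
split.)

(3) Conversely, let `G(1), G(2), …` be any sequence of odd natural numbers which tends to infinity, however sparse. The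
following are equivalent: (a) the sum `Z_0 + ... + Z_p` is direct for all `p` (Q1); (b) the conclusion of (1) holds for all
patterns and all dispersed families; (c) for all patterns in one variable with exactly one letter which is not constant,
`s + b`, and all `B` there are arbitrarily large `n` for which all LINEAR relations with integer coefficients at most `B` between
the multiple zeta values of the patterns at `s = G(n)` split into relations of one weight.

One-parameter families have much less than `N ^ (k - 1)` members if `k ≥ 2`; so (1) does not follow from the number of the bad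
tuples (`AlmostAllTuples`, helper734).
-/

set_option autoImplicit false

open Filter

namespace Pool.Agent.Results.MP_4d52ff_nt.PolynomialArguments

open Pool.Agent.Results.MP_4d52ff_nt.AlmostAllTuples
open Pool.Agent.Results.MP_4d52ff_nt.BadHyperplanes (OnFewHyperplanes part2H splits_mono)
open Pool.Agent.N734.MZ (St Zg Tr)
open Pool.Agent.U553.HY (Range OnHyperplanes Dispersed)

/-- There is `K` such that for all `C`, all sufficiently large `N` and all `W` there are at most `K (W + 1)` numbers `n` for
which some tuple `s` with `|s_j - F_j(n)| ≤ W` and `2 ≤ s_j ≤ κ N`, such that the first letters of the patterns `w_i` which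
are not constant are at least `N`, has the property `E (C ^ N)`. -/
def FewNear {k r : ℕ} (w : Fin r → List (Letter k)) (κ : ℕ) (F : Fin k → ℕ → ℝ) (E : ℝ → (Fin k → ℕ) → Prop) : Prop :=
  ∃ K : ℕ, ∀ C : ℝ, ∃ N₀ : ℕ, ∀ N : ℕ, N₀ ≤ N → ∀ W : ℕ,
    {n : ℕ | ∃ s ∈ Range w κ N, (∀ j, |(s j : ℝ) - F j n| ≤ W) ∧ E (C ^ N) s}.encard ≤ (K * (W + 1) : ℕ)

theorem fewNear {k r κ : ℕ} {w : Fin r → List (Letter k)} {F : Fin k → ℕ → ℝ} (hF : Dispersed F)
    {E : ℝ → (Fin k → ℕ) → Prop} (h : OnFewHyperplanes w κ E) : FewNear w κ F E := by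
  obtain ⟨K, hK⟩ := h
  obtain ⟨K', hK'⟩ := hF.few K
  refine ⟨K', fun C => ?_⟩
  obtain ⟨N₀, hN₀⟩ := hK C
  refine ⟨N₀, fun N hN W => (Set.encard_le_encard ?_).trans (hK' _ (hN₀ N hN) W)⟩
  rintro n ⟨s, h1, h2, h3⟩
  exact ⟨s, ⟨h1, h3⟩, h2⟩

/-- statement (b) -/
def AlongDispersed : Prop :=
  ∀ (k r : ℕ) (w : Fin r → List (Letter k)), (∀ i, AdmissiblePattern (w i)) → ∀ (D κ : ℕ) (F : Fin k → ℕ → ℝ),
    Dispersed F → FewNear w κ F fun H s => Bad w D H s

/-- statement (c), for the sequence `G` -/
def LinearAlong (G : ℕ → ℕ) : Prop :=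
  ∀ (r : ℕ) (w : Fin r → List (Letter 1)), (∀ i, AdmissiblePattern (w i) ∧ OneLarge (w i)) → ∀ B n₁ : ℕ,
    ∃ n, n₁ ≤ n ∧ ∀ a : Fin r → ℤ, (∀ i, |a i| ≤ B) →
      ∑ i, (a i : ℝ) * mzv (index (fun _ => G n) (w i)) = 0 → ∀ p,
      ∑ i with (index (fun _ => G n) (w i)).sum = p, (a i : ℝ) * mzv (index (fun _ => G n) (w i)) = 0

theorem c_to_large (G : ℕ → ℕ) (hG : ∀ n, Odd (G n)) (hG' : Tendsto G atTop atTop) (h : LinearAlong G) :
    OneLargeArgument := by
  intro r w hw B s₁
  obtain ⟨n₁, hn₁⟩ := eventually_atTop.1 (hG'.eventually_ge_atTop s₁)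
  obtain ⟨n, hn, h1⟩ := h r w hw B n₁
  exact ⟨G n, hn₁ n hn, hG n, h1⟩

theorem dispersed_id : Dispersed (fun (_ : Fin 1) (n : ℕ) => (n : ℝ)) := by
  have h := Pool.Agent.U553.HY.dispersed_poly (fun _ : Fin 1 => (Polynomial.X : Polynomial ℝ)) (fun b hb => by
    have hb0 : b 0 ≠ 0 := by
      intro h0
      apply hb
      funext i
      rw [Subsingleton.elim i 0, h0]
      rfl
    rw [Fin.sum_univ_one, Polynomial.natDegree_smul _ (by exact_mod_cast hb0), Polynomial.natDegree_X]
    exact one_pos)
  simpa using h

/-- the linear polynomial -/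
theorem lin_poly {r : ℕ} (a : Fin r → ℤ) (B : ℕ) (ha : ∀ i, |a i| ≤ B) (N : ℕ) (hN : 1 ≤ N) :
    ∃ P : MvPolynomial (Fin r) ℤ, P.totalDegree ≤ 1 ∧ (∀ m, |((P.coeff m : ℤ) : ℝ)| ≤ (B + 1 : ℝ) ^ N) ∧
      ∀ (A : Type) [CommRing A] [Algebra ℤ A] (v : Fin r → A), MvPolynomial.aeval v P = ∑ i, (a i : A) * v i := by
  classical
  refine ⟨∑ i, MvPolynomial.C (a i) * MvPolynomial.X i, ?_, fun m => ?_, fun A _ _ v => ?_⟩
  · refine MvPolynomial.totalDegree_finsetSum_le fun i _ => ?_
    refine (MvPolynomial.totalDegree_mul _ _).trans ?_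
    rw [MvPolynomial.totalDegree_C, zero_add]
    exact (MvPolynomial.totalDegree_X _).le
  · rw [MvPolynomial.coeff_sum]
    simp only [MvPolynomial.coeff_C_mul, MvPolynomial.coeff_X]
    have hB1 : (B : ℝ) ≤ (B + 1 : ℝ) ^ N := by
      have h3 : (B + 1 : ℝ) ^ 1 ≤ (B + 1 : ℝ) ^ N :=
        pow_le_pow_right₀ (by have := Nat.cast_nonneg (α := ℝ) B; linarith) hN
      rw [pow_one] at h3
      linarith
    refine le_trans ?_ hB1
    by_cases hm : ∃ i, Finsupp.single i 1 = m
    · obtain ⟨i₀, rfl⟩ := hm
      have h4 : ∑ x, a x * (if Finsupp.single x 1 = Finsupp.single i₀ 1 then (1 : ℤ) else 0) = a i₀ := by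
        rw [Finset.sum_eq_single i₀]
        · rw [if_pos rfl, mul_one]
        · intro x _ hx
          rw [if_neg, mul_zero]
          intro h5
          exact hx ((Finsupp.single_left_inj one_ne_zero).1 h5)
        · intro h5
          exact absurd (Finset.mem_univ _) h5
      rw [h4]
      exact_mod_cast ha i₀
    · have h4 : ∑ x, a x * (if Finsupp.single x 1 = m then (1 : ℤ) else 0) = 0 := by
        refine Finset.sum_eq_zero fun x _ => ?_
        rw [if_neg fun h5 => hm ⟨x, h5⟩, mul_zero]
      rw [h4, Int.cast_zero, abs_zero]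
      exact Nat.cast_nonneg _
  · rw [map_sum]
    refine Finset.sum_congr rfl fun i _ => ?_
    rw [map_mul, MvPolynomial.aeval_C, MvPolynomial.aeval_X, eq_intCast]

theorem b_to_large (h : AlongDispersed) : OneLargeArgument := by
  classical
  intro r w hw B s₁
  by_contra hcon
  push Not at hcon
  obtain ⟨K, hK⟩ := h 1 r w (fun i => (hw i).1) 1 4 _ dispersed_id
  obtain ⟨N₀, hN⟩ := hK (B + 1 : ℝ)
  set N := N₀ + s₁ + K + 2 with hNdef
  have h1 := hN N (by omega) 0
  let φ : ℕ → ℕ := fun i => 2 * (N + i) + 1
  have hφ : Function.Injective φ := by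
    intro i j hij
    simp only [φ] at hij
    omega
  have h2 : φ '' ((Finset.range (K + 1) : Finset ℕ) : Set ℕ) ⊆
      {n : ℕ | ∃ s ∈ Range w 4 N, (∀ j, |(s j : ℝ) - (fun (_ : Fin 1) (n : ℕ) => (n : ℝ)) j n| ≤ ((0 : ℕ) : ℝ)) ∧
        Bad w 1 ((B + 1 : ℝ) ^ N) s} := by
    rintro n ⟨i', hi, rfl⟩
    rw [Finset.mem_coe, Finset.mem_range] at hi
    have e1 : 2 ≤ 2 * (N + i') + 1 := by omega
    have e2 : 2 * (N + i') + 1 ≤ 4 * N := by omega
    have e3 : N ≤ 2 * (N + i') + 1 := by omega
    refine ⟨fun _ => 2 * (N + i') + 1, ⟨fun j => ⟨e1, e2⟩, fun i' =>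
      Pool.Agent.U553.HY.largeFirst_of (fun j => e3) _⟩, fun j => ?_, ?_⟩
    · simp only [φ]
      simp
    · obtain ⟨a, ha, hR, p, hA⟩ := hcon (2 * (N + i') + 1) (by omega) ⟨N + i', rfl⟩
      obtain ⟨P, hP1, hP2, hP3⟩ := lin_poly a B ha N (by omega)
      refine ⟨P, hP1, hP2, ?_, p, ?_⟩
      · rw [hP3]
        exact hR
      · rw [← coeff_gval, gval, hP3, coeff_linear (fun i => index (fun _ => 2 * (N + i') + 1) (w i)) a p]
        exact hA
  have h3 := (Set.encard_le_encard h2).trans h1
  rw [hφ.encard_image, Set.encard_coe_eq_coe_finsetCard, Finset.card_range] at h3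
  have h4 : K + 1 ≤ K * (0 + 1) := by exact_mod_cast h3
  omega

theorem adm_index {k : ℕ} {s : Fin k → ℕ} (hs : ∀ j, 2 ≤ s j) {w : List (Letter k)} (hw : AdmissiblePattern w) :
    Admissible (index s w) := by
  have key : ∀ u : Letter k, u.2 ≠ 0 → 2 ≤ u.1 + ∑ j, u.2 j * s j := by
    intro u hu
    obtain ⟨j, hj⟩ : ∃ j, u.2 j ≠ 0 := by
      by_contra h
      push Not at h
      exact hu (funext h)
    have h1 : u.2 j * s j ≤ ∑ j, u.2 j * s j :=
      Finset.single_le_sum (f := fun j => u.2 j * s j) (fun _ _ => Nat.zero_le _) (Finset.mem_univ j)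
    have h2 : s j ≤ u.2 j * s j := Nat.le_mul_of_pos_left _ (Nat.pos_of_ne_zero hj)
    have := hs j
    omega
  obtain ⟨h1, h2, h3⟩ := hw
  cases w with
  | nil => exact absurd rfl h1
  | cons u w =>
    refine ⟨?_, fun t ht => ?_⟩
    · rcases h2 u (by simp) with h | h
      · exact key u h
      · exact h.trans (Nat.le_add_right _ _)
    · rw [List.mem_map] at ht
      obtain ⟨v, hv, rfl⟩ := ht
      rcases h3 v (List.mem_cons_of_mem _ hv) with h | h
      · exact le_trans (by norm_num) (key v h)
      · exact h.trans (Nat.le_add_right _ _)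

theorem a_to_c (G : ℕ → ℕ) (hG' : Tendsto G atTop atTop) (h : Splits Set.univ) : LinearAlong G := by
  classical
  intro r w hw B n₁
  obtain ⟨n₂, hn₂⟩ := eventually_atTop.1 (hG'.eventually_ge_atTop 2)
  refine ⟨n₁ + n₂, by omega, fun a _ h0 p => ?_⟩
  set s : Fin 1 → ℕ := fun _ => G (n₁ + n₂) with hs
  have hs2 : ∀ j, 2 ≤ s j := fun _ => hn₂ _ (by omega)
  let g : Fin r → {u : List ℕ // Admissible u ∧ u ∈ (Set.univ : Set (List ℕ))} :=
    fun i => ⟨index s (w i), adm_index hs2 (hw i).1, trivial⟩
  have key : ∀ (B : Type) [CommRing B] [Algebra ℚ B] (Y : List ℕ → B),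
      MvPolynomial.aeval (fun u : {u : List ℕ // Admissible u ∧ u ∈ (Set.univ : Set (List ℕ))} => Y u.1)
        (∑ i, MvPolynomial.C (a i : ℚ) * MvPolynomial.X (g i)) = ∑ i, (a i : B) * Y (index s (w i)) := by
    intro B _ _ Y
    rw [map_sum]
    refine Finset.sum_congr rfl fun i _ => ?_
    rw [map_mul, MvPolynomial.aeval_C, MvPolynomial.aeval_X, map_intCast]
  have h1 := h (∑ i, MvPolynomial.C (a i : ℚ) * MvPolynomial.X (g i)) (by rw [key ℝ mzv]; exact h0) p
  rw [← coeff_gval, gval, key (Polynomial ℝ) Zg, coeff_linear (fun i => index s (w i)) a p] at h1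
  exact h1

/-- **Theorem.** Let `w_1, ..., w_r` be admissible patterns in `k` variables with even fronts, or such that all polynomial
relations between the multiple zeta values of the fronts split into relations of one weight; let `D`, `κ` be natural numbers
and `F_1, ..., F_k` a dispersed family of real sequences. (1) There is `K` such that for all `C`, all large `N` and all `W` there
are at most `K (W + 1)` numbers `n` with the following property: there is a tuple `s`, `|s_j - F_j(n)| ≤ W`, `2 ≤ s_j ≤ κ N`, for
which the first letters of the patterns which are not constant are at least `N`, and for which some relation of degree at most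
`D` with integer coefficients at most `C ^ N` between the multiple zeta values of the patterns does not split into relations of
one weight. (2) The values of real polynomials of which no nontrivial integer combination is constant are a dispersed family.
(3) For a sequence `G` of odd numbers which tends to infinity the following are equivalent: all sums `Z_0 + ... + Z_p` are
direct; for all admissible patterns, `D`, `κ` and all dispersed families the bound of (1) holds; for all patterns in one
variable with exactly one letter which is not constant, `s + b`, and all `B` there are arbitrarily large `n` for which all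
linear relations with integer coefficients at most `B` between the multiple zeta values of the patterns at `G(n)` split. -/
theorem result :
    (∀ (k r : ℕ) (w : Fin r → List (Letter k)), (∀ i, AdmissiblePattern (w i)) →
      ((∀ i, EvenFront (w i)) ∨ Splits (fronts w)) → ∀ (D κ : ℕ) (F : Fin k → ℕ → ℝ), Dispersed F →
        FewNear w κ F fun H s => Bad w D H s) ∧
    (∀ (k : ℕ) (p : Fin k → Polynomial ℝ), (∀ b : Fin k → ℤ, b ≠ 0 → 0 < (∑ j, (b j : ℝ) • p j).natDegree) →
      Dispersed fun j n => (p j).eval (n : ℝ)) ∧
    ∀ G : ℕ → ℕ, (∀ n, Odd (G n)) → Tendsto G atTop atTop →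
      ((∀ p, IsDirect p) ↔ AlongDispersed) ∧ ((∀ p, IsDirect p) ↔ LinearAlong G) := by
  refine ⟨fun k r w hw he D κ F hF => fewNear hF (part2H w hw (he.elim (even_splits w) id) D κ),
    fun k p hp => Pool.Agent.U553.HY.dispersed_poly p hp, fun G hG hG' => ?_⟩
  have hback : OneLargeArgument → ∀ p, IsDirect p := fun h => direct_of_splits (c_to_a h)
  refine ⟨⟨fun h k r w hw D κ F hF => ?_, fun h => hback (b_to_large h)⟩,
    ⟨fun h => a_to_c G hG' (splits_of_direct h), fun h => hback (c_to_large G hG hG' h)⟩⟩
  exact fewNear hF (part2H w hw (splits_mono _ (splits_of_direct h)) D κ)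

end Pool.Agent.Results.MP_4d52ff_nt.PolynomialArguments
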